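import Pool.Agent.H37.CTO.Stmts

set_option autoImplicit false

namespace Pool.CND

theorem pfn_charF (p : ℕ) (F : Type) [Field F] (f q : ℕ)
    (hp : p.Prime) (hf : 1 ≤ f) (hq : q = p ^ f) (hF : Nat.card F = q) :
    CharP F p := by
  have := Fact.mk hp
  have : Finite F := Nat.finite_of_card_ne_zero (by rw [hF, hq]; exact pow_ne_zero _ hp.ne_zero)
  have : Fintype F := Fintype.ofFinite F
  obtain ⟨r, hr⟩ := CharP.exists F
  obtain ⟨n, hr1, hr2⟩ := FiniteField.card F r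
  rw [Nat.card_eq_fintype_card, hr2, hq] at hF
  have : p = r := by
    have h1 : p ∣ r ^ (n : ℕ) := hF ▸ dvd_pow_self p (by omega)
    exact (Nat.prime_dvd_prime_iff_eq hp hr1).1 (hp.dvd_of_dvd_pow h1)
  rw [this]; exact hr

/-- a finite field of characteristic `p` embeds in an algebraically closed one -/
theorem pfn_alg (p : ℕ) (k F : Type) [Field k] [IsAlgClosed k] [Field F] (hp : p.Prime)
    (hk : CharP k p) (hF : CharP F p) (hfin : Finite F) : Nonempty (Algebra F k) := by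
  have := Fact.mk hp
  letI : Algebra (ZMod p) F := ZMod.algebra F p
  letI : Algebra (ZMod p) k := ZMod.algebra k p
  have h1 : Algebra.IsAlgebraic (ZMod p) F := inferInstance
  exact ⟨(IsAlgClosed.lift (R := ZMod p) (S := F) (M := k)).toRingHom.toAlgebra⟩

theorem pfn_center (p n : ℕ) (F : Type) [Field F] [Finite F] [CharP F p] (hp : p.Prime) :
    ¬ p ∣ Nat.card (Subgroup.center (Matrix.SpecialLinearGroup (Fin n) F)) := by
  have := Fact.mk hp
  intro h
  obtain ⟨g, hg⟩ := exists_prime_orderOf_dvd_card' p h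
  set u := Matrix.SpecialLinearGroup.center_equiv_rootsOfUnity g with hu
  have h1 : u ^ p = 1 := by
    rw [hu, ← map_pow, ← hg, pow_orderOf_eq_one, map_one]
  have h2 : ((u : Fˣ) : F) ^ p = 1 := by
    have := congrArg (fun x => ((x : Fˣ) : F)) (congrArg Subtype.val h1)
    simpa using this
  have h3 : (((u : Fˣ) : F) - 1) ^ p = 0 := by
    rw [sub_pow_char, h2, one_pow, sub_self]
  have h4 : ((u : Fˣ) : F) = 1 := sub_eq_zero.1 (pow_eq_zero_iff hp.ne_zero |>.1 h3)
  have h5 : u = 1 := by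
    apply Subtype.ext
    apply Units.ext
    simpa using h4
  have h6 : g = 1 := by
    apply Matrix.SpecialLinearGroup.center_equiv_rootsOfUnity.injective
    rw [← hu, h5, map_one]
  rw [h6, orderOf_one] at hg
  exact hp.one_lt.ne hg

theorem pfn_coprime (q n : ℕ) (hq : 2 ≤ q) :
    Nat.Coprime q ((Finset.Icc 1 (n - 1)).lcm (fun m => q ^ m - 1)) := by
  have h1 : Nat.Coprime q (∏ m ∈ Finset.Icc 1 (n - 1), (q ^ m - 1)) := by
    refine Nat.Coprime.prod_right fun m hm => ?_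
    have hm1 : 1 ≤ m := (Finset.mem_Icc.1 hm).1
    have h2 : 1 ≤ q ^ m := Nat.one_le_pow _ _ (by omega)
    obtain ⟨x, hx⟩ : ∃ x, q ^ m = x + 1 := ⟨q ^ m - 1, by omega⟩
    have h3 : Nat.Coprime (q ^ m) (q ^ m - 1) := by
      rw [hx]
      simp
    exact Nat.Coprime.coprime_dvd_left (dvd_pow_self q (by omega)) h3
  exact Nat.Coprime.coprime_dvd_right
    (Finset.lcm_dvd fun m hm => Finset.dvd_prod_of_mem (fun m => q ^ m - 1) hm) h1

theorem pfn_thm (h57 : S_P57) (hA : S_ALL) (hL : S_NLB) (hN : S_NQD) (hU : S_UB3) : S_PFN := by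
  intro p k F _ _ _ f q n hp hp2 hk hf hq hF hn C _ hC
  have hfin : Finite F :=
    Nat.finite_of_card_ne_zero (by rw [hF, hq]; exact pow_ne_zero _ hp.ne_zero)
  have hch : CharP F p := pfn_charF p F f q hp hf hq hF
  obtain ⟨hAl⟩ := pfn_alg p k F hp hk hch hfin
  have hq2 : 2 ≤ q := by
    rw [hq]
    calc 2 ≤ p := hp.two_le
      _ = p ^ 1 := (pow_one p).symm
      _ ≤ p ^ f := Nat.pow_le_pow_right hp.pos hf
  have hCp : ¬ p ∣ Nat.card C := fun h =>
    pfn_center p n F hp (h.trans (Subgroup.card_dvd_of_le hC))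
  have a1 := hL p k F f q n hp hk hf hq hF hn
  have a2 : q ^ (n - 2) ∣ NG k (Matrix.SpecialLinearGroup (Fin n) F) := by
    obtain ⟨s, rfl⟩ : ∃ s, n = s + 3 := ⟨n - 3, by omega⟩
    have hc := h57 p k F f q s hp hp2 hk hf hq hF
    obtain ⟨z, hz⟩ := hA p k _ _ hp hk hc
    rw [show s + 3 - 2 = s + 1 by omega]
    have hQ2 : 2 ≤ q ^ (s + 1) := by
      calc 2 ≤ q := hq2
        _ = q ^ 1 := (pow_one q).symm
        _ ≤ q ^ (s + 1) := Nat.pow_le_pow_right (by omega) (by omega)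
    have hQ : (2 : ℚ) ≤ (q : ℚ) ^ (s + 1) := by exact_mod_cast hQ2
    have hne : (q : ℚ) ^ (s + 1) * ((q : ℚ) ^ (s + 1) - 1) ≠ 0 := by
      refine mul_ne_zero (by linarith) (by linarith)
    rw [← mul_div_assoc, div_eq_iff hne] at hz
    have hz' : (NG k (Matrix.SpecialLinearGroup (Fin (s + 3)) F) : ℤ) *
        ((q : ℤ) ^ (s + 1) * nu q s + 1) = z * ((q : ℤ) ^ (s + 1) * ((q : ℤ) ^ (s + 1) - 1)) := by
      exact_mod_cast hz
    have hd : ((q ^ (s + 1) : ℕ) : ℤ) ∣ (NG k (Matrix.SpecialLinearGroup (Fin (s + 3)) F) : ℤ) := by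
      refine ⟨z * ((q : ℤ) ^ (s + 1) - 1) -
        NG k (Matrix.SpecialLinearGroup (Fin (s + 3)) F) * nu q s, ?_⟩
      push_cast
      linear_combination hz'
    exact_mod_cast hd
  have a3 : q ^ (n - 2) * (Finset.Icc 1 (n - 1)).lcm (fun m => q ^ m - 1) ∣
      NG k (Matrix.SpecialLinearGroup (Fin n) F) :=
    Nat.Coprime.mul_dvd_of_dvd_of_dvd (Nat.Coprime.pow_left _ (pfn_coprime q n hq2)) a2 a1
  have a4 := hN p k (Matrix.SpecialLinearGroup (Fin n) F) C hp hk hCp
  have a5 := (hU p f q n k F (Matrix.SpecialLinearGroup (Fin n) F) C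
    Matrix.SpecialLinearGroup.toGL hp hf hq hF (by omega)
    Matrix.SpecialLinearGroup.toGL_injective hC hCp).2
  exact Nat.dvd_antisymm a5 (a3.trans a4)

end Pool.CND
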